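import Pool.Agent.H72.ET.Targets

/-!
The elements with a relation of small degree in a linear space form few small subspaces.
-/

open Finset Module

namespace Pool.Agent.H35.ET

open Pool.Agent.H72.BF (RelN RelD)
open Pool.Agent.H72.ET

/-- linear substitutions do not raise the degree -/
private theorem totalDegree_aeval_le' {K σ τ : Type} [Field K] [Fintype σ]
    (f : σ → MvPolynomial τ K) (hf : ∀ i, (f i).totalDegree ≤ 1) (Q : MvPolynomial σ K) :
    (MvPolynomial.aeval f Q).totalDegree ≤ Q.totalDegree := by
  rw [MvPolynomial.aeval_def, MvPolynomial.eval₂_eq']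
  refine MvPolynomial.totalDegree_finsetSum_le fun m hm => ?_
  refine le_trans (MvPolynomial.totalDegree_mul _ _) ?_
  rw [MvPolynomial.algebraMap_eq, MvPolynomial.totalDegree_C, zero_add]
  refine le_trans (MvPolynomial.totalDegree_finsetProd _ _) ?_
  refine le_trans ?_ (MvPolynomial.le_totalDegree hm)
  rw [Finsupp.sum_fintype _ _ (fun _ => rfl)]
  refine Finset.sum_le_sum fun i _ => ?_
  refine le_trans (MvPolynomial.totalDegree_pow _ _) ?_
  calc m i * (f i).totalDegree ≤ m i * 1 := Nat.mul_le_mul_left _ (hf i)
    _ = m i := Nat.mul_one _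

/-- adding a constant does not change the degree of the relation -/
private theorem relN_add {K F : Type} [Field K] [Field F] [Algebra K F] {r : ℕ} {t : Fin r → F}
    {z : F} {d : ℕ} (a : K) (h : RelN K t d z) : RelN K t d (a • (1 : F) + z) := by
  obtain ⟨Q, hQ, hdeg, hval⟩ := h
  let f : Fin (r + 1) → MvPolynomial (Fin (r + 1)) K :=
    Fin.snoc (fun i => MvPolynomial.X (Fin.castSucc i))
      (MvPolynomial.X (Fin.last r) - MvPolynomial.C a)
  let g : Fin (r + 1) → MvPolynomial (Fin (r + 1)) K :=
    Fin.snoc (fun i => MvPolynomial.X (Fin.castSucc i))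
      (MvPolynomial.X (Fin.last r) + MvPolynomial.C a)
  have hf : ∀ i, (f i).totalDegree ≤ 1 := by
    intro i
    refine Fin.lastCases ?_ (fun j => ?_) i
    · simp only [f, Fin.snoc_last]
      refine le_trans (MvPolynomial.totalDegree_sub _ _) (max_le ?_ ?_)
      · rw [MvPolynomial.totalDegree_X]
      · rw [MvPolynomial.totalDegree_C]; exact Nat.zero_le _
    · simp only [f, Fin.snoc_castSucc]
      rw [MvPolynomial.totalDegree_X]
  refine ⟨MvPolynomial.aeval f Q, ?_, le_trans (totalDegree_aeval_le' f hf Q) hdeg, ?_⟩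
  · intro h0
    apply hQ
    have hcomp : (MvPolynomial.aeval g).comp (MvPolynomial.aeval f) =
        AlgHom.id K (MvPolynomial (Fin (r + 1)) K) := by
      apply MvPolynomial.algHom_ext
      intro i
      rw [AlgHom.comp_apply, MvPolynomial.aeval_X, AlgHom.id_apply]
      refine Fin.lastCases ?_ (fun j => ?_) i
      · simp only [f, Fin.snoc_last]
        rw [map_sub, MvPolynomial.aeval_X, MvPolynomial.aeval_C]
        simp only [g, Fin.snoc_last]
        rw [MvPolynomial.algebraMap_eq, add_sub_cancel_right]
      · simp only [f, Fin.snoc_castSucc]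
        rw [MvPolynomial.aeval_X]
        simp only [g, Fin.snoc_castSucc]
    have h1 := DFunLike.congr_fun hcomp Q
    rw [AlgHom.comp_apply, h0, map_zero, AlgHom.id_apply] at h1
    exact h1.symm
  · have hcomp : (MvPolynomial.aeval (Fin.snoc t (a • (1 : F) + z) : Fin (r + 1) → F)).comp
        (MvPolynomial.aeval f) =
        (MvPolynomial.aeval (Fin.snoc t z : Fin (r + 1) → F) :
          MvPolynomial (Fin (r + 1)) K →ₐ[K] F) := by
      apply MvPolynomial.algHom_ext
      intro i
      rw [AlgHom.comp_apply, MvPolynomial.aeval_X, MvPolynomial.aeval_X]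
      refine Fin.lastCases ?_ (fun j => ?_) i
      · simp only [f, Fin.snoc_last]
        rw [map_sub, MvPolynomial.aeval_X, MvPolynomial.aeval_C, Fin.snoc_last,
          Algebra.smul_def, mul_one, add_sub_cancel_left]
      · simp only [f, Fin.snoc_castSucc]
        rw [MvPolynomial.aeval_X, Fin.snoc_castSucc]
    have h1 := DFunLike.congr_fun hcomp Q
    rw [AlgHom.comp_apply] at h1
    rw [h1, hval]

/-- algebraic form for algebraically independent elements -/
theorem pf_EXN (hCVN : T_CVN) (hGST : Pool.Agent.H72.BF.T_GST) : T_EXN := by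
  classical
  intro r d M
  obtain ⟨s, hs⟩ := hCVN r d M
  refine ⟨s, ?_⟩
  intro K F _ _ _ _ _ t y hai hli
  have hli' := Fintype.linearIndependent_iff.1 hli
  obtain ⟨Ws, hcard, hin, hcov⟩ := hs K F t hai y
  have hsum : ∀ v : Fin M → K, ∑ j, algebraMap K F (v j) * y j
      = Fintype.linearCombination K y v := by
    intro v
    rw [Fintype.linearCombination_apply]
    exact Finset.sum_congr rfl fun j _ => (Algebra.smul_def _ _).symm
  have hdim : ∀ W ∈ Ws, finrank K W + 1 ≤ (r + d).choose d := by
    intro W hW
    let Ψ : (K × W) →ₗ[K] F :=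
      LinearMap.coprod (LinearMap.toSpanSingleton K F 1)
        ((Fintype.linearCombination K y).comp W.subtype)
    have hΨ : ∀ a (v : W), Ψ (a, v) = a • (1 : F) +
        Fintype.linearCombination K y (v : Fin M → K) := by
      intro a v
      rfl
    have hinj : Function.Injective Ψ := by
      rw [injective_iff_map_eq_zero]
      rintro ⟨a, v⟩ h0
      rw [hΨ] at h0
      have hg := hli' (Fin.cons a (v : Fin M → K)) (by
        rw [Fin.sum_univ_succ]
        simp only [Fin.cons_zero, Fin.cons_succ]
        rw [Fintype.linearCombination_apply] at h0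
        exact h0)
      have ha : a = 0 := hg 0
      have hv : v = 0 := by
        apply Subtype.ext
        funext j
        exact hg j.succ
      rw [ha, hv]
      rfl
    have hfd : FiniteDimensional K (LinearMap.range Ψ) := inferInstance
    by_contra hcon
    push Not at hcon
    obtain ⟨z, ⟨⟨a, v⟩, hz⟩, -, hno⟩ := hGST K F r d t (fun P _ hP =>
      (injective_iff_map_eq_zero _).1 hai P hP) (LinearMap.range Ψ) hfd (by
        rw [LinearMap.finrank_range_of_inj hinj]
        simp only [Module.finrank_prod, Module.finrank_self]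
        omega)
    have h1 : RelN K t d z := by
      rw [← hz, hΨ, ← hsum]
      exact relN_add a (hin W hW v v.2)
    obtain ⟨Q, hQ0, hQd, hQz⟩ := h1
    exact hQ0 (hno Q hQd hQz)
  obtain ⟨e⟩ : Nonempty (Ws ↪ Fin s) := by
    rw [Function.Embedding.nonempty_iff_card_le]
    simpa using hcard
  refine ⟨fun i => if h : ∃ W : Ws, e W = i then (h.choose : Submodule K (Fin M → K)) else ⊥,
    ?_, ?_⟩
  · intro i
    beta_reduce
    by_cases h : ∃ W : Ws, e W = i
    · rw [dif_pos h]
      exact hdim _ h.choose.2
    · rw [dif_neg h, finrank_bot, zero_add]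
      exact Nat.choose_pos (Nat.le_add_left _ _)
  · intro v hv
    obtain ⟨W, hW, hvW⟩ := hcov v hv
    refine ⟨e ⟨W, hW⟩, ?_⟩
    have h : ∃ W' : Ws, e W' = e ⟨W, hW⟩ := ⟨⟨W, hW⟩, rfl⟩
    beta_reduce
    rw [dif_pos h]
    have := e.injective h.choose_spec
    rw [this]
    exact hvW

end Pool.Agent.H35.ET
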